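import Pool.Agent.H56.G3.TR

/-!
Row RU of the board gs3 (MP_c59857_nt): near optimal sums are near optimal on the parts.
-/

set_option autoImplicit false

namespace Pool.Agent.H91.G3

open Finset Pool.Agent.H6.N4D Pool.Agent.H93.EB Pool.Agent.H93.GS Pool.Agent.H56.G3

/-- the sum of the integrand over a window -/
noncomputable def ruS (lam : ℕ → ℝ) (g : Ex) (L a : ℕ) : ℝ := ∑ m ∈ Ioc a (a + L), jj lam g m

theorem ruS_J (th : ℝ) (lam : ℕ → ℝ) (g : Ex) (L a : ℕ) :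
    (L : ℝ) * J th lam 1 L a g = ruS lam g L a - 2 * th * g.nm * L := by
  unfold J ar ruS jj
  have h1 : (Ioc a (a + L)).filter (fun m => 1 ∣ m) = Ioc a (a + L) := by
    apply filter_true_of_mem
    intro m _
    exact one_dvd m
  rw [h1, Nat.cast_one, mul_one]
  by_cases hL : L = 0
  · subst hL
    simp
  · have : (L : ℝ) ≠ 0 := by exact_mod_cast hL
    field_simp

theorem ruS_add (lam : ℕ → ℝ) (g : Ex) (L₁ L₂ a : ℕ) :
    ruS lam g (L₁ + L₂) a = ruS lam g L₁ a + ruS lam g L₂ (a + L₁) := by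
  unfold ruS
  rw [← sum_union]
  · congr 1
    ext m
    simp only [mem_union, mem_Ioc]
    omega
  · rw [disjoint_left]
    intro m h1 h2
    rw [mem_Ioc] at h1 h2
    omega

theorem ru_sum (F : ℕ → ℝ) (L₁ L₂ a : ℕ) :
    ∑ j ∈ range (L₁ + L₂), F (a + j) = ∑ j ∈ range L₁, F (a + j) +
      ∑ j ∈ range L₂, F (a + L₁ + j) := by
  rw [sum_range_add]
  congr 1
  apply sum_congr rfl
  intro j _
  rw [add_assoc]

theorem ru_nm (g : Ex) : 0 ≤ g.nm := sum_nonneg fun _ _ => norm_nonneg _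

theorem pf_RU (hRB : T_RB) (hRS : T_RS) (hRN : T_RN) : T_RU := by
  intro th lam κ κ' M N n N' n' g hth hth1 hB hM hN' hκ' hn hnN hsl hdf
  obtain ⟨N₁, hN₁⟩ : ∃ N₁, n' = n + N₁ := ⟨n' - n, by omega⟩
  obtain ⟨N₃, hN₃⟩ : ∃ N₃, n + N = n' + N' + N₃ := ⟨n + N - (n' + N'), by omega⟩
  subst hN₁
  have hN : N = N₁ + (N' + N₃) := by omega
  have hN1 : 1 ≤ N := by omega
  have hNr : (0 : ℝ) < N := by exact_mod_cast hN1
  have hNr' : (0 : ℝ) < N' := by exact_mod_cast hN'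
  have hM0 : (0 : ℝ) ≤ M := Nat.cast_nonneg M
  have hnm := ru_nm g
  -- the short sums on any part
  have hpart : ∀ L a : ℕ, (L : ℝ) * J th lam 1 L a g ≤ ∑ j ∈ range L, En th lam 1 M (a + j) +
      2 * M * (2 * g.nm + g.nm ^ 2) := by
    intro L a
    by_cases hL : L = 0
    · subst hL
      simp only [Nat.cast_zero, zero_mul, range_zero, sum_empty, zero_add]
      positivity
    · exact hRS th lam M L a g hth hB hM (by omega)
  obtain ⟨-, hE0, -, -, -, hnmb, -⟩ := hRB th lam 1 N n hth hB le_rfl hN1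
  unfold df at hdf
  have hJ : -1 ≤ J th lam 1 N n g := by linarith
  have hnm2 : g.nm ≤ 2 / th := hnmb g hN1 hJ
  -- the middle part
  have hmid := hRN th lam M N' (n + N₁) hth hth1 hB hM hN'
  unfold sl at hmid hsl
  have hmid2 : (N' : ℝ) * En th lam 1 N' (n + N₁) ≤ ∑ j ∈ range N', En th lam 1 M (n + N₁ + j) +
      16 / th ^ 2 * M := by
    have h1 := mul_le_mul_of_nonneg_left hmid hNr'.le
    refine h1.trans (le_of_eq ?_)
    field_simp
  -- the whole window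
  have hall : ∑ j ∈ range N, En th lam 1 M (n + j) ≤ N * (En th lam 1 N n + κ) := by
    have h1 : (∑ j ∈ range N, En th lam 1 M (n + j)) / N ≤ En th lam 1 N n + κ := by linarith
    rw [div_le_iff₀ hNr] at h1
    linarith
  have hsplit : ∑ j ∈ range N, En th lam 1 M (n + j) =
      ∑ j ∈ range N₁, En th lam 1 M (n + j) + (∑ j ∈ range N', En th lam 1 M (n + N₁ + j) +
        ∑ j ∈ range N₃, En th lam 1 M (n + N₁ + N' + j)) := by
    rw [hN, ru_sum (En th lam 1 M) N₁ (N' + N₃) n, ru_sum (En th lam 1 M) N' N₃ (n + N₁)]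
  have hJs : (N : ℝ) * J th lam 1 N n g = N₁ * J th lam 1 N₁ n g +
      (N' * J th lam 1 N' (n + N₁) g + N₃ * J th lam 1 N₃ (n + N₁ + N') g) := by
    rw [ruS_J, ruS_J, ruS_J, ruS_J, hN, ruS_add, ruS_add]
    push_cast
    ring
  have hp1 := hpart N₁ n
  have hp3 := hpart N₃ (n + N₁ + N')
  have hEk : (N : ℝ) * (En th lam 1 N n - J th lam 1 N n g) ≤ N * κ' :=
    mul_le_mul_of_nonneg_left hdf hNr.le
  -- the constants
  have hc : 2 * g.nm + g.nm ^ 2 ≤ 8 / th ^ 2 := by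
    have h1 : g.nm ^ 2 ≤ (2 / th) ^ 2 := pow_le_pow_left₀ hnm hnm2 2
    have h2 : 2 / th ≤ 2 / th ^ 2 := by
      apply div_le_div_of_nonneg_left (by norm_num) (by positivity)
      nlinarith
    have h3 : (2 / th) ^ 2 = 4 / th ^ 2 := by
      rw [div_pow]
      norm_num
    have h4 : 2 * (2 / th ^ 2) + 4 / th ^ 2 = 8 / th ^ 2 := by ring
    linarith
  have hc2 : 2 * (M : ℝ) * (2 * g.nm + g.nm ^ 2) ≤ 2 * M * (8 / th ^ 2) :=
    mul_le_mul_of_nonneg_left hc (by positivity)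
  have hc3 : 0 ≤ (M : ℝ) * (1 / th ^ 2) := by positivity
  have e1 : 2 * (M : ℝ) * (8 / th ^ 2) = 16 * (M * (1 / th ^ 2)) := by ring
  have e2 : 16 / th ^ 2 * (M : ℝ) = 16 * (M * (1 / th ^ 2)) := by ring
  have e3 : 50 / th ^ 2 * (M : ℝ) = 50 * (M * (1 / th ^ 2)) := by ring
  unfold df
  rw [e3]
  rw [e1] at hc2
  rw [e2] at hmid2
  rw [hsplit] at hall
  nlinarith

end Pool.Agent.H91.G3
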